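import Mathlib
import Pool.Agent.Helper447.DiracDefs
import Pool.Agent.Helper447.DiracOdd
import Pool.Agent.Helper447.DiracEven

/-!
Every number n at least 85 admits a noncollinear set of n points of the plane in which every
point lies on fewer than n / 2 connecting lines.
-/

namespace Pool.Agent.Results.MP_1d3c0d_co.NotGood

open Pool.Agent.Helper447.Dirac

/-- No number `n` with `85 ≤ n` is good. -/
theorem result : ∀ n : ℕ, 85 ≤ n → ¬ Good n := by
  intro n hn
  rcases Nat.even_or_odd n with h | h
  · exact even_not_good n (Nat.even_iff.1 h) hn
  · exact odd_not_good n h (by omega)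

end Pool.Agent.Results.MP_1d3c0d_co.NotGood
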